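import Pool.Agent.K3h72.Sol.Final

/-!
# The set function `T` on products of indecomposable continua

The question is whether `T(W) = X × Y` for every subcontinuum `W` with nonempty interior of the product of two
indecomposable continua `X`, `Y`.  The answer is no, even for `X = Y` metrizable.

Let `Z` be the profinite completion of the free group with the basis `a₀, a₁` and `X` the suspension of the two
left translations of `Z`: glue `Z × {0, 1} × [0, 1]` by `(z, i, 0) ~ (z, j, 0)` and `(z, i, 1) ~ (aᵢ z, j, 0)`.
`X` is the inverse limit of all finite coverings of the figure eight `B`.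

`X` is indecomposable.  Suppose that a proper subcontinuum `C` contains an open set and misses the piece
`V × {i} × {t}`, `V` clopen in `Z`.  The indicator function of `V`, as a cocycle with values in `ℤ/2` on the
edges with the label `i`, becomes a coboundary `φ` over a deeper finite covering, so that `φ` gives a continuous
function on `C` with values in `ℤ/2`.  It is not constant on any open set because every edge of a finite
covering of `B` lies on a loop which passes through it once.

In `B × B` there are two disjoint compact connected sets with nonempty interior, both of which carry the whole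
fundamental group of `B × B`.  Therefore their preimages in `X × X` are connected.  One of them
consists of the points `(x, y)` where `y` is on the piece `1/4 ≤ s ≤ 1/3` of the loop `j` and `x` is on the loop
`j` or on the first third of the other loop, or where `x` is on the piece `1/4 ≤ s ≤ 1/3` of the loop `1 - j` and
`y` is on the loop `j` or on the first third of the other loop.  The other one is its mirror image under
the change of the directions of the loops.
-/

set_option autoImplicit false

open Set Topology

namespace Pool.Agent.Results.MP_cdfe0d_gt.ProperValueOfT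

/-- A subcontinuum of a Hausdorff space: a nonempty compact connected subset. -/
def IsSubcontinuum {S : Type} [TopologicalSpace S] (K : Set S) : Prop := IsCompact K ∧ IsConnected K

/-- An indecomposable continuum: a nonempty compact connected Hausdorff space which is not the union of two
proper subcontinua. -/
def IsIndecomposableContinuum (X : Type) [TopologicalSpace X] : Prop :=
  CompactSpace X ∧ T2Space X ∧ ConnectedSpace X ∧
    ∀ A B : Set X, IsSubcontinuum A → IsSubcontinuum B → A ∪ B = univ → A = univ ∨ B = univ

/-- The set function `T`: `T(A)` is the set of the points `p` which have no subcontinuum `K` with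
`p ∈ int K` and `K ∩ A = ∅`. -/
def setT {S : Type} [TopologicalSpace S] (A : Set S) : Set S :=
  {p | ¬ ∃ K : Set S, IsSubcontinuum K ∧ p ∈ interior K ∧ K ∩ A = ∅}

/-- **Negative answer.** There are a metrizable indecomposable continuum `X` and a subcontinuum `W` of `X × X`
with nonempty interior such that `T(W) ≠ X × X`. -/
theorem result : ∃ (X : Type) (_ : TopologicalSpace X),
    TopologicalSpace.MetrizableSpace X ∧ IsIndecomposableContinuum X ∧
      ∃ W : Set (X × X), IsSubcontinuum W ∧ (interior W).Nonempty ∧ setT W ≠ univ := by
  refine ⟨K3h72.Sol.YY, inferInstance, inferInstance, ⟨inferInstance, inferInstance,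
    K3h72.Sol.YY_connected, ?_⟩, K3h72.Sol.KK K3h72.Sol.yy, ⟨K3h72.Sol.KK1.1, K3h72.Sol.KK1.2.1⟩,
    K3h72.Sol.KK1.2.2, ?_⟩
  · intro A B hA hB hAB
    by_cases h : B = univ
    · exact Or.inr h
    · refine Or.inl (K3h72.Sol.YY_full A hA.1.isClosed hA.2.2 ?_)
      obtain ⟨x, hx⟩ := nonempty_compl.2 h
      refine ⟨x, interior_maximal ?_ hB.1.isClosed.isOpen_compl hx⟩
      intro y hy
      rcases (hAB ▸ mem_univ y : y ∈ A ∪ B) with h1 | h1
      · exact h1
      · exact absurd h1 hy
  · intro h
    obtain ⟨x, hx⟩ := K3h72.Sol.KK2.2.2
    have h1 : x ∈ setT (K3h72.Sol.KK K3h72.Sol.yy) := h ▸ mem_univ x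
    refine h1 ⟨K3h72.Sol.KK (K3h72.Sol.qq K3h72.Sol.aa K3h72.Sol.yy), ⟨K3h72.Sol.KK2.1, K3h72.Sol.KK2.2.1⟩, hx, ?_⟩
    rw [inter_comm]
    exact K3h72.Sol.KK12

end Pool.Agent.Results.MP_cdfe0d_gt.ProperValueOfT
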